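import Pool.Agent.N469.HB.Final

/-!
# MP_1eaf70_lc: Harland's conjecture for machines with few non-halting transitions (and more)
-/

set_option autoImplicit false

namespace Pool.Agent.Results.MP_1eaf70_lc.FewTransitions

open Pool.Agent.N469.HB

/-- **Harland's conjecture for a range of `k`, and for classes of machines for all `k`.**
Machines have `n + 2` states and `m + 1` symbols. Let `δ` be such a machine of finite activity `t`
with `k = haltCount δ` halting table entries. Suppose that one of the following holds:
* `k > (n + 2) * m` (number of states times (number of symbols minus one));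
* there are at most as many symbols as states, and some state (not the initial one) is never the
  state of the machine before it halts;
* some state never scans a blank, and either at the last step a neighbouring cell of the scanned
  cell is blank, or some scanned cell is blank when the machine halts, or for `c = 1` or `c = -1`,
  leaving the last step aside, no state is entered both by a move from the cell `0` to the cell `c`
  and by a move from `c` to `0`, and some state is entered by neither (this holds for example if
  the cell `c` is never scanned);
* at the last step the neighbouring cell on the side `ε` is blank, and some non-halting entry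
  `(s, 0)` of the table writes a non-blank symbol and moves to the side `-ε`;
* on one side `ε` of the cell of the last step, at most `n + 1` different symbols occur up to the
  nearest blank cell, and some state never scans a blank or one of these symbols.
Then there is a `k`-halting machine with the same number of states and one more symbol, of finite
activity, with strictly larger activity and strictly larger productivity. -/
theorem result (n m : ℕ) (δ : Tab n m) (t : ℕ) (hT : HaltsAt δ t)
    (h : (n + 2) * m < haltCount δ ∨
      (m + 1 ≤ n + 2 ∧ ∃ s, ∀ r < t, (run δ r).1 ≠ some s) ∨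
      ((∃ s, ∀ r < t, (run δ r).1 = some s → scan δ r ≠ 0) ∧
        (((run δ (t - 1)).2.1 ((run δ (t - 1)).2.2 + 1) = 0 ∨
          (run δ (t - 1)).2.1 ((run δ (t - 1)).2.2 - 1) = 0) ∨
         (∃ r < t, (run δ t).2.1 (run δ r).2.2 = 0) ∨
         (∃ c : ℤ, (c = 1 ∨ c = -1) ∧
           (∀ s, ¬ (Cross δ (t - 1) 0 c s ∧ Cross δ (t - 1) c 0 s)) ∧
           ∃ s, ¬ Cross δ (t - 1) 0 c s ∧ ¬ Cross δ (t - 1) c 0 s))) ∨
      (∃ ε : ℤ, (ε = 1 ∨ ε = -1) ∧ (run δ (t - 1)).2.1 ((run δ (t - 1)).2.2 + ε) = 0 ∧
        ∃ s, (δ s 0).1 ≠ 0 ∧ (δ s 0).2.2 ≠ none ∧
          (if (δ s 0).2.1 then (1 : ℤ) else -1) = -ε) ∨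
      (∃ ε : ℤ, (ε = 1 ∨ ε = -1) ∧
        (∃ s, ∀ r < t, (run δ r).1 = some s →
          scan δ r ≠ 0 ∧ ¬ Between δ (t - 1) ε (scan δ r)) ∧
        {c | Between δ (t - 1) ε c}.ncard ≤ n + 1)) :
    ∃ δ' : Tab n (m + 1), haltCount δ' = haltCount δ ∧
      ∃ t', t < t' ∧ HaltsAt δ' t' ∧ nonblank δ t < nonblank δ' t' :=
  main δ (one_le_haltCount δ hT) t hT h

end Pool.Agent.Results.MP_1eaf70_lc.FewTransitions
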